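import Pool.Agent.Lib.MP_1d0474_co.Pairing
import Pool.Agent.Lib.MP_1d0474_co.Enforcer
import Pool.Agent.Lib.MP_1d0474_co.Breaker

/-!
# The Weak Win Number and the Reverse Weak Win Number of `K_4`

`ww(K_4; -) ≤ 9 < ww(K_4)`, so that `ww(K_q) ≤ ww(K_q; -)` is false for `q = 4`. The games, strategies and the two
numbers are defined in `Pool.Agent.Lib.MP_1d0474_co.Game`, in the words of the problem.
-/

set_option autoImplicit false

namespace Pool.Agent.Results.MP_1d0474_co.WeakWinNumbersK4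

open Pool.Agent.Lib.MP_1d0474_co.Game Pool.Agent.K4G

/-- For `q = 4` both numbers exist, `ww(K_4; -) ≤ 9` and `9 < ww(K_4)`. -/
theorem result : ∃ a b : ℕ, IsWeakWinNumber 4 a ∧ IsReverseWeakWinNumber 4 b ∧ b ≤ 9 ∧ 9 < a := by
  classical
  have hforce : ∀ N, 9 ≤ N → SomeoneForces 4 N := by
    intro N hN
    rcases win_of_ew9 isWin ew9 N hN with h | h
    · exact Or.inl (guarantees_of_win (by omega) h)
    · exact Or.inr (guarantees_of_win (by omega) h)
  have hbreak : ¬ MakerWins 4 9 := fun h => not_win_of_bw9 isWin bw9 (win_of_guarantees h)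
  have hex1 : ∃ M : ℕ, ∀ N, M ≤ N → MakerWins 4 N := exists_makerWins 4
  have hex2 : ∃ M : ℕ, ∀ N, M ≤ N → SomeoneForces 4 N := ⟨9, hforce⟩
  refine ⟨Nat.find hex1, Nat.find hex2, ⟨Nat.find_spec hex1, fun M hM => Nat.find_min' hex1 hM⟩,
    ⟨Nat.find_spec hex2, fun M hM => Nat.find_min' hex2 hM⟩, Nat.find_min' hex2 hforce, ?_⟩
  by_contra hcon
  exact hbreak (Nat.find_spec hex1 9 (by omega))

end Pool.Agent.Results.MP_1d0474_co.WeakWinNumbersK4
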